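import Pool.Agent.Helper84_TMP.Stmt
import Pool.Agent.Helper99_DEN.Fld

/-!
# CLS: sums over the classes modulo `Bd n`
-/

open scoped BigOperators

namespace Pool.Agent.TMP.H13

open Pool.Agent.DEN Pool.Agent.TMP

section
variable {K : Type} [Field K]

/-- The Laurent polynomial with given coefficients in a finite range of exponents. -/
noncomputable def mkp (s : Finset ℤ) (c : s → K) : FF K := ∑ j : s, HahnSeries.single (j : ℤ) (c j)

theorem coeff_mkp (s : Finset ℤ) (c : s → K) (j : ℤ) :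
    HahnSeries.coeff (mkp s c) j = if h : j ∈ s then c ⟨j, h⟩ else 0 := by
  have hsum : HahnSeries.coeff (mkp s c) j =
      ∑ i : s, HahnSeries.coeff (HahnSeries.single (i : ℤ) (c i)) j := by
    unfold mkp
    exact map_sum (HahnSeries.coeff.addMonoidHom j) (fun i : s => HahnSeries.single (i : ℤ) (c i))
      Finset.univ
  rw [hsum]
  split_ifs with h
  · rw [Finset.sum_eq_single ⟨j, h⟩]
    · simp
    · intro b _ hb
      apply HahnSeries.coeff_single_of_ne
      intro hj
      exact hb (Subtype.ext hj.symm)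
    · intro hj
      exact absurd (Finset.mem_univ _) hj
  · apply Finset.sum_eq_zero
    intro b _
    apply HahnSeries.coeff_single_of_ne
    intro hj
    exact h (hj ▸ b.2)

variable [Finite K]

theorem card_im {X : Type} (n m : ℤ) (hnm : n ≤ m) (P : FF K → X)
    (hP : ∀ b b', P b = P b' ↔ b - b' ∈ Bd K n) :
    (P '' Bd K m).Finite ∧ ((P '' Bd K m).ncard : ℂ) = (Nat.card K : ℂ) ^ (m - n) := by
  obtain ⟨s, hs⟩ : ∃ s : Finset ℤ, s = Finset.Ico (-m) (-n) := ⟨_, rfl⟩
  have hmem : ∀ j, j ∈ s ↔ -m ≤ j ∧ j < -n := fun j => by rw [hs, Finset.mem_Ico]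
  have hinj : Function.Injective (fun c : s → K => P (mkp s c)) := by
    intro c c' h
    have h1 := (hP _ _).mp h
    funext j
    have h2 := h1 j.1 ((hmem _).mp j.2).2
    rw [HahnSeries.coeff_sub, coeff_mkp, coeff_mkp, dif_pos j.2, dif_pos j.2] at h2
    exact sub_eq_zero.mp h2
  have hran : Set.range (fun c : s → K => P (mkp s c)) = P '' Bd K m := by
    ext y
    constructor
    · rintro ⟨c, rfl⟩
      refine ⟨mkp s c, ?_, rfl⟩
      intro j hj
      rw [coeff_mkp, dif_neg]
      rw [hmem]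
      omega
    · rintro ⟨b, hb, rfl⟩
      refine ⟨fun j => HahnSeries.coeff b j.1, ?_⟩
      refine (hP _ _).mpr ?_
      intro j hj
      rw [HahnSeries.coeff_sub, coeff_mkp]
      split_ifs with h
      · exact sub_self _
      · rw [hmem] at h
        rw [hb j (by omega), sub_zero]
  constructor
  · rw [← hran]
    exact Set.finite_range _
  · rw [← hran, ← Nat.card_coe_set_eq, Nat.card_congr (Equiv.ofInjective _ hinj).symm,
      Nat.card_fun]
    have h0 : Nat.card s = (-n - -m).toNat := by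
      rw [Nat.card_eq_fintype_card, Fintype.card_coe, hs, Int.card_Ico]
    have h1 : m - n = ((-n - -m).toNat : ℤ) := by omega
    rw [Nat.cast_pow, h0, h1, zpow_natCast]

theorem cls_sum {X : Type} (n p : ℤ) (hnp : n ≤ p) (P : FF K → X)
    (hP : ∀ b b', P b = P b' ↔ b - b' ∈ Bd K n) (f : X → ℂ) (a : ℤ → ℂ)
    (ha : ∀ b ∈ Bd K p, f (P b) = a p) (k : ℕ)
    (hk : ∀ m, p < m → m ≤ p + k → ∀ b ∈ Bd K m, b ∉ Bd K (m - 1) → f (P b) = a m) :
    ∑ᶠ y ∈ P '' Bd K (p + k), f y = (Nat.card K : ℂ) ^ (p - n) * a p +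
      ∑ m ∈ Finset.Ioc p (p + k), ((Nat.card K : ℂ) - 1) * (Nat.card K : ℂ) ^ (m - 1 - n) * a m := by
  have hq : (Nat.card K : ℂ) ≠ 0 := by
    have : Nat.card K ≠ 0 := Nat.card_pos.ne'
    exact_mod_cast this
  have hconst : ∀ (s : Set X) (z : ℂ), s.Finite → (∀ y ∈ s, f y = z) →
      ∑ᶠ y ∈ s, f y = (s.ncard : ℂ) * z := by
    intro s z hs hz
    rw [finsum_mem_congr rfl hz, finsum_mem_eq_finite_toFinset_sum _ hs, Finset.sum_const,
      Set.ncard_eq_toFinset_card s hs, nsmul_eq_mul]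
  induction k with
  | zero =>
    obtain ⟨h1, h2⟩ := card_im n p hnp P hP
    rw [Nat.cast_zero, add_zero, Finset.Ioc_self, Finset.sum_empty, add_zero,
      hconst _ (a p) h1 ?_, h2]
    rintro y ⟨b, hb, rfl⟩
    exact ha b hb
  | succ k ih =>
    have ih' := ih (fun m h1 h2 b hb hb' => hk m h1 (by push_cast; omega) b hb hb')
    obtain ⟨h1, h2⟩ := card_im n (p + k) (by omega) P hP
    obtain ⟨h3, h4⟩ := card_im n (p + (k + 1 : ℕ)) (by omega) P hP
    have hsub : P '' Bd K (p + k) ⊆ P '' Bd K (p + (k + 1 : ℕ)) := by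
      rintro y ⟨b, hb, rfl⟩
      refine ⟨b, ?_, rfl⟩
      intro j hj
      exact hb j (by push_cast at hj; omega)
    have hdiff : (P '' Bd K (p + (k + 1 : ℕ)) \ P '' Bd K (p + k)).Finite := h3.sdiff
    have hsplit : P '' Bd K (p + (k + 1 : ℕ)) =
        P '' Bd K (p + k) ∪ (P '' Bd K (p + (k + 1 : ℕ)) \ P '' Bd K (p + k)) :=
      (Set.union_sdiff_cancel hsub).symm
    have hdisj : Disjoint (P '' Bd K (p + k)) (P '' Bd K (p + (k + 1 : ℕ)) \ P '' Bd K (p + k)) :=
      Set.disjoint_sdiff_right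
    have hcard : ((P '' Bd K (p + (k + 1 : ℕ)) \ P '' Bd K (p + k)).ncard : ℂ) =
        ((Nat.card K : ℂ) - 1) * (Nat.card K : ℂ) ^ (p + (k + 1 : ℕ) - 1 - n) := by
      have h5 := Set.ncard_sdiff_add_ncard_of_subset hsub h3
      have h6 : ((P '' Bd K (p + (k + 1 : ℕ)) \ P '' Bd K (p + k)).ncard : ℂ) +
          ((P '' Bd K (p + k)).ncard : ℂ) = ((P '' Bd K (p + (k + 1 : ℕ))).ncard : ℂ) := by
        exact_mod_cast h5
      rw [h2, h4] at h6
      have h7 : (p + (k + 1 : ℕ) - n : ℤ) = (p + k - n) + 1 := by push_cast; ring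
      have h8 : (p + (k + 1 : ℕ) - 1 - n : ℤ) = p + k - n := by push_cast; ring
      rw [h7, zpow_add_one₀ hq] at h6
      rw [h8]
      linear_combination h6
    rw [hsplit, finsum_mem_union hdisj h1 hdiff, ih', hconst _ (a (p + (k + 1 : ℕ))) hdiff ?_,
      hcard, add_assoc]
    · congr 1
      have h9 : Finset.Ioc p (p + (k + 1 : ℕ)) =
          insert (p + (k + 1 : ℕ)) (Finset.Ioc p (p + k)) := by
        ext m
        simp only [Finset.mem_Ioc, Finset.mem_insert]
        push_cast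
        omega
      rw [h9, Finset.sum_insert, add_comm]
      simp only [Finset.mem_Ioc]
      push_cast
      omega
    · rintro y ⟨⟨b, hb, rfl⟩, hy⟩
      apply hk _ (by push_cast; omega) le_rfl b hb
      intro hb'
      apply hy
      refine ⟨b, ?_, rfl⟩
      have h10 : (p + (k + 1 : ℕ) - 1 : ℤ) = p + k := by push_cast; ring
      rwa [h10] at hb'

end

theorem cls : ClsStmt := by
  intro K _ _ X n p M hnp hpM P hP f a ha hm
  obtain ⟨k, rfl⟩ : ∃ k : ℕ, M = p + k := ⟨(M - p).toNat, by omega⟩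
  exact ⟨(card_im n (p + k) (by omega) P hP).1, cls_sum n p hnp P hP f a ha k hm⟩

end Pool.Agent.TMP.H13
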