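import Pool.Agent.Helper84_TMP.Stmt

/-!
# KGN: `maxK` is generated by the integral root elements
-/

open scoped BigOperators

namespace Pool.Agent.TMP.H13

open Pool.Agent.DEN Pool.Agent.TMP

section
variable {r : ℕ} {C : Matrix (Fin r) (Fin r) ℤ} {K : Type} [Field K]

/-- The group generated by the integral root elements. -/
noncomputable def K0 (hC : SimplyLaced C) (K : Type) [Field K] : Subgroup (grp C K) :=
  Subgroup.closure {g | ∃ (β : Rt C) (a : FF K), a ∈ Bd K 0 ∧ g = xg hC β a}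

theorem xg_K0 (hC : SimplyLaced C) (β : Rt C) {a : FF K} (ha : a ∈ Bd K 0) :
    xg hC β a ∈ K0 hC K :=
  Subgroup.subset_closure ⟨β, a, ha, rfl⟩

theorem wg_K0 (hC : SimplyLaced C) (β : Rt C) {a : FF K} (ha : a ∈ Bd K 0)
    (ha' : a⁻¹ ∈ Bd K 0) : wg hC β a ∈ K0 hC K :=
  mul_mem (mul_mem (xg_K0 hC β ha) (xg_K0 hC β.neg ha')) (xg_K0 hC β ha)

theorem one_Bd : (1 : FF K) ∈ Bd K 0 := by
  have h := (H22.hF1 K).2.2.2.2.2.1 1
  simpa using h

theorem wg1_K0 (hC : SimplyLaced C) (β : Rt C) : wg hC β (1 : FF K) ∈ K0 hC K :=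
  wg_K0 hC β one_Bd (by rw [inv_one]; exact one_Bd)

/-- A root element can be moved through a torus element. -/
theorem xg_tg (hC : SimplyLaced C) (l : Fin r → ℤ) (β : Rt C) (a : FF K) :
    xg hC β a * tg hC K l = tg hC K l * xg hC β (tt K ^ (-ip C β.1 l) * a) := by
  have h := tg_xg hC l β (tt K ^ (-ip C β.1 l) * a)
  have h7 : tt K ≠ 0 := (H22.hF1 K).2.2.2.2.2.2.1
  rw [← mul_assoc, ← zpow_add₀ h7, add_neg_cancel, zpow_zero, one_mul] at h
  rw [← h]
  group

/-- The reflection of a torus element. -/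
theorem wg_tg (hC : SimplyLaced C) (l : Fin r → ℤ) (i : Fin r) :
    wg hC (hC.sr i) (1 : FF K) * tg hC K l = tg hC K (sf C i l) * wg hC (hC.sr i) (1 : FF K) := by
  have h1 : IsTor (l - ip C l (hC.sr i).1 • (hC.sr i).1) (tg hC K (sf C i l)) := by
    have h2 : l - ip C l (hC.sr i).1 • (hC.sr i).1 = sf C i l := by
      rw [SimplyLaced.sr_val, hC.ip_comm]; rfl
    rw [h2]
    exact isTor_tg hC _
  exact (H22.tor r C hC K).2.2.2.2 l (tg hC K l) _ (hC.sr i) (isTor_tg hC l) h1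

theorem ip_al_al (hC : SimplyLaced C) (i : Fin r) : ip C (al i) (al i) = 2 := (hC.sr i).2

theorem ip_sf (hC : SimplyLaced C) (i : Fin r) (l : Fin r → ℤ) :
    ip C (al i) (sf C i l) = - ip C (al i) l := by
  unfold sf
  rw [ip_sub_right, ip_smul_right, ip_al_al hC]
  ring

theorem sf_sf' (hC : SimplyLaced C) (i : Fin r) (l : Fin r → ℤ) : sf C i (sf C i l) = l := by
  have h := ip_sf hC i l
  show sf C i l - ip C (al i) (sf C i l) • al i = l
  rw [h]
  unfold sf
  module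

/-- The elements of `U t^l K₀`. -/
def Pk (hC : SimplyLaced C) (K : Type) [Field K] (g : grp C K) : Prop :=
  ∃ u ∈ Ug C K, ∃ l : Fin r → ℤ, ∃ k ∈ K0 hC K, g = u * tg hC K l * k

/-- The rank one computation with `K₀`. -/
theorem rk1_K0 (hC : SimplyLaced C) (i : Fin r) (b : FF K) (l : Fin r → ℤ) :
    Pk hC K (wg hC (hC.sr i) (1 : FF K) * xg hC (hC.sr i) b * tg hC K l) := by
  obtain ⟨F1, F2, F3, F4, F5, F6, F7, F8, F9⟩ := H22.hF1 K
  by_cases hb : b ∈ Bd K (ip C (al i) l)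
  · refine ⟨1, one_mem _, sf C i l,
      wg hC (hC.sr i) (1 : FF K) * xg hC (hC.sr i) (tt K ^ (-ip C (al i) l) * b), ?_, ?_⟩
    · refine mul_mem (wg1_K0 hC _) (xg_K0 hC _ ?_)
      have h := F4 (-ip C (al i) l) (ip C (al i) l) (tt K ^ (-ip C (al i) l)) b
        (by
          have := (F8 (-ip C (al i) l) 1).mpr one_Bd
          rwa [mul_one] at this) hb
      rwa [neg_add_cancel] at h
    · rw [mul_assoc, xg_tg hC, one_mul, ← mul_assoc, wg_tg hC, mul_assoc]
      rw [SimplyLaced.sr_val]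
  · have hb0 : b ≠ 0 := by
      rintro rfl
      exact hb (F1 _)
    obtain ⟨m, u, hbu, hu0, hu1, hune, hbm⟩ := F9 b hb0
    have hm : b ∈ Bd K m := by
      rw [hbu, F8]
      exact hu0
    have hlt : ip C (al i) l < m := by
      by_contra hle
      push Not at hle
      exact hb (F5 _ _ _ hle hm)
    set β := hC.sr i with hβ
    have hval : β.1 = al i := hC.sr_val i
    have hβ2 : ip C β.1 β.1 = 2 := β.2
    set w := wg hC β (1 : FF K) with hw
    have hwK : w ∈ K0 hC K := wg1_K0 hC β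
    have hbi : b⁻¹ ≠ 0 := inv_ne_zero hb0
    have hbinv : b⁻¹ = tt K ^ (-m) * u⁻¹ := by
      rw [hbu, mul_inv, ← zpow_neg]
    -- conjugation of the root element
    have e3 : w * xg hC β b = xg hC β.neg b * w := by
      have h := (H22.relC r C hC K β 1 one_ne_zero b).1
      rw [one_pow, inv_one, one_mul] at h
      rw [← h, hw]
      group
    have e4 : xg hC β.neg b = xg hC β (-b⁻¹) * wg hC β b⁻¹ * xg hC β (-b⁻¹) := by
      unfold wg
      rw [inv_inv, ← xg_inv]
      group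
    have e1 : w * tg hC K l = tg hC K (sf C i l) * w := wg_tg hC l i
    have e2 : w * tg hC K (sf C i l) = tg hC K l * w := by
      have h := wg_tg (K := K) hC (sf C i l) i
      rw [sf_sf' hC] at h
      exact h
    -- `k1`
    set k1 := xg hC β (tt K ^ (-ip C β.1 (sf C i l)) * (-b⁻¹)) with hk1
    have hk1K : k1 ∈ K0 hC K := by
      refine xg_K0 hC _ ?_
      have h1 : ip C β.1 (sf C i l) = - ip C (al i) l := by rw [hval]; exact ip_sf hC i l
      rw [h1, neg_neg, mul_neg]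
      apply F3
      rw [hbinv, ← mul_assoc, ← zpow_add₀ F7]
      exact F5 _ _ _ (by omega) ((F8 (ip C (al i) l + -m) u⁻¹).mpr hu1)
    have e5 : xg hC β (-b⁻¹) * tg hC K (sf C i l) = tg hC K (sf C i l) * k1 := xg_tg hC _ _ _
    -- the diagonal element
    have e6 : (wg hC β b⁻¹ * w⁻¹) * tg hC K l =
        tg hC K (l - m • al i) * (wg hC β u⁻¹ * w⁻¹) := by
      refine grp_ext fun v => ?_
      have h1 := H22.relH r C hC K β b⁻¹ hbi
      have h2 := H22.relH r C hC K β u⁻¹ (inv_ne_zero hune)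
      show (wg hC β b⁻¹ * (wg hC β (1 : FF K))⁻¹).1 ((tg hC K l).1 v) =
        (tg hC K (l - m • al i)).1 ((wg hC β u⁻¹ * (wg hC β (1 : FF K))⁻¹).1 v)
      rw [h1, h2, isTor_tg hC l, isTor_tg hC (l - m • al i)]
      refine Prod.ext rfl ?_
      funext γ
      show b⁻¹ ^ ip C β.1 γ.1 * (tt K ^ ip C γ.1 l * v.2 γ) =
        tt K ^ ip C γ.1 (l - m • al i) * (u⁻¹ ^ ip C β.1 γ.1 * v.2 γ)
      have h3 : ip C γ.1 (l - m • al i) = ip C γ.1 l + (-m) * ip C β.1 γ.1 := by
        rw [ip_sub_right, ip_smul_right, hC.ip_comm β.1 γ.1]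
        show ip C γ.1 l - m * ip C γ.1 (al i) = ip C γ.1 l + -m * ip C γ.1 (al i)
        ring
      rw [hbinv, mul_zpow, ← zpow_mul, h3, zpow_add₀ F7]
      ring
    have hd : wg hC β u⁻¹ ∈ K0 hC K := wg_K0 hC β hu1 (by rw [inv_inv]; exact hu0)
    refine ⟨xg hC β (-b⁻¹), H67.mem_Ug hC (H67.sr_pos hC i) _, l - m • al i,
      (wg hC β u⁻¹ * w⁻¹) * w * k1 * w, ?_, ?_⟩
    · exact mul_mem (mul_mem (mul_mem (mul_mem hd (inv_mem hwK)) hwK) hk1K) hwK
    · have e7 : wg hC β b⁻¹ * tg hC K (sf C i l) =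
          tg hC K (l - m • al i) * (wg hC β u⁻¹ * w⁻¹) * w := by
        rw [← e6, mul_assoc, ← e2]
        group
      calc w * xg hC β b * tg hC K l
          = xg hC β.neg b * (w * tg hC K l) := by rw [e3, mul_assoc]
        _ = xg hC β (-b⁻¹) * wg hC β b⁻¹ * (xg hC β (-b⁻¹) * tg hC K (sf C i l)) * w := by
            rw [e1, e4]; group
        _ = xg hC β (-b⁻¹) * (wg hC β b⁻¹ * tg hC K (sf C i l)) * k1 * w := by
            rw [e5]; group
        _ = _ := by rw [e7]; group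

/-- The Iwasawa decomposition `G = U t^l K₀`. -/
theorem iwa_K0 (hC : SimplyLaced C) (g : grp C K) : Pk hC K g := by
  have key := H67.stable (C := C) (K := K) H22.hGen H22.relH hC (X := grp C K) (Pk hC K) ?_ ?_ g
  · have h1 : Pk hC K (1 : grp C K) :=
      ⟨1, one_mem _, 0, 1, one_mem _, by rw [tg_zero hC, mul_one, mul_one]⟩
    have h2 := key 1 h1
    rwa [smul_eq_mul, mul_one] at h2
  · rintro i a x ⟨u, hu, l, k, hk, rfl⟩
    refine ⟨_, mul_mem (H67.mem_Ug hC (H67.sr_pos hC i) a) hu, l, k, hk, ?_⟩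
    rw [smul_eq_mul]
    group
  · rintro i x ⟨u, hu, l, k, hk, rfl⟩
    obtain ⟨b, u', hu', rfl⟩ := ups hC i hu
    have h3 : wi hC K i * u' * (wi hC K i)⁻¹ ∈ Ug C K := Un_le i (wi_Un hC i hu')
    obtain ⟨u2, hu2, l2, k2, hk2, h4⟩ := rk1_K0 (K := K) hC i b l
    refine ⟨_, mul_mem h3 hu2, l2, _, mul_mem hk2 hk, ?_⟩
    rw [smul_eq_mul]
    have h5 : wg hC (hC.sr i) (1 : FF K) * (u' * xi hC i b * tg hC K l * k) =
        (wi hC K i * u' * (wi hC K i)⁻¹) *
          (wg hC (hC.sr i) (1 : FF K) * xg hC (hC.sr i) b * tg hC K l) * k := by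
      unfold wi xi
      group
    rw [h5, h4]
    group

end

/-- KGN. -/
theorem kgn (hor : HorStmt) : KgnStmt := by
  intro r C hC K _
  apply le_antisymm
  · intro g hg
    obtain ⟨u, hu, l, k, hk, rfl⟩ := iwa_K0 (K := K) hC g
    have hkM : k ∈ maxK C K := by
      have h : K0 hC K ≤ maxK C K := by
        unfold K0
        rw [Subgroup.closure_le]
        rintro _ ⟨β, a, ha, rfl⟩
        exact xg_maxK hC β ha
      exact h hk
    obtain ⟨h1, -, h3⟩ := hor r C hC K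
    have h4 : (u * tg hC K l) • oo C K = oo C K := by
      have h5 := (mem_maxK_iff _).mp hg
      rw [mul_smul, (mem_maxK_iff k).mp hkM] at h5
      exact h5
    rw [mul_smul, tp_smul hC] at h4
    have h6 : l = 0 := h1 u hu l 0 (by rw [h4, tp_zero hC])
    subst h6
    rw [tp_zero hC] at h4
    have h7 := h3 u hu h4
    rw [tg_zero hC, mul_one]
    refine mul_mem ?_ hk
    have h8 : UO hC K ≤ Subgroup.closure
        {g | ∃ (β : Rt C) (a : FF K), a ∈ Bd K 0 ∧ g = xg hC β a} := by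
      refine Subgroup.closure_mono ?_
      rintro _ ⟨β, a, -, ha, rfl⟩
      exact ⟨β, a, ha, rfl⟩
    exact h8 h7
  · rw [Subgroup.closure_le]
    rintro _ ⟨β, a, ha, rfl⟩
    exact xg_maxK hC β ha

end Pool.Agent.TMP.H13
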