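import Pool.Agent.Helper2_TMP.StG
import Pool.Agent.Helper22_DEN4.Asm4

/-!
# The trivial bound for the number of orthonormal cusp forms
-/

open scoped BigOperators

namespace Pool.Agent.DEN.TMP.H13

open Pool.Agent.DEN Pool.Agent.DEN.TMP

theorem trv : TrvStmt := by
  intro r C hC K _ _ hr N hN n f hcusp horth
  have hN0 : N ≠ 0 := by
    rintro rfl
    simp at hN
  have hone : ∀ j, petersson N (f j) (f j) = 1 := fun j => by rw [horth, if_pos rfl]
  have hq2 : 2 ≤ Nat.card K := Finite.one_lt_card
  have hq0 : (0 : ℝ) < Nat.card K := by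
    have : 0 < Nat.card K := by omega
    exact_mod_cast this
  classical
  obtain ⟨c, hc⟩ : ∃ c : XX C K → ℂ, c = fun y => if y = pt 1 then 1 else 0 := ⟨_, rfl⟩
  have hcs : Function.support c = {pt (1 : grp C K)} := by
    ext y
    rw [Function.mem_support, hc, Set.mem_singleton_iff]
    by_cases h : y = pt 1
    · simp [h]
    · simp [h]
  have hsum : ∑ᶠ y, ‖c y‖ ^ 2 = 1 := by
    rw [finsum_eq_single _ (pt (1 : grp C K))]
    · simp [hc]
    · intro y hy
      simp [hc, hy]
  have key := H224.hCn2 r C hC K hr N hN0 n f hcusp hone (fun _ => 1)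
    (fun _ => zero_le_one) 1 zero_le_one (N.natDegree - 1) ?_
  · have h2 : (N.natDegree : ℝ) / (Nat.card K : ℝ) ^ (N.natDegree - 1) ≤ 1 := by
      rw [div_le_one (by positivity)]
      have h5 : ∀ b : ℕ, b + 1 ≤ 2 ^ b := fun b => Nat.lt_two_pow_self
      have h3 : N.natDegree ≤ Nat.card K ^ (N.natDegree - 1) := by
        obtain ⟨b, hb⟩ : ∃ b, N.natDegree = b + 1 := ⟨N.natDegree - 1, by omega⟩
        rw [hb, Nat.add_sub_cancel]
        exact (h5 b).trans (Nat.pow_le_pow_left hq2 _)
      exact_mod_cast h3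
    have h3 : (2 + (N.natDegree : ℝ) / (Nat.card K : ℝ) ^ (N.natDegree - 1)) ^ r ≤ 3 ^ r := by
      apply pow_le_pow_left₀ (by positivity)
      linarith
    have h4 : ∑ _j : Fin n, (1 : ℝ) = n := by simp
    rw [h4, mul_one] at key
    exact key.trans (mul_le_mul_of_nonneg_right h3 (Nat.cast_nonneg _))
  · intro γ hγ l g hg hl
    have h1 := H224.hThi2 r C hC K N hN0 n f hcusp horth 0 (by omega) c
      (by rw [hcs]; exact Set.finite_singleton _) ?_ (fun _ => 1) ?_ γ hγ l g hg hl
    · rw [hsum] at h1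
      have h2 : ((N.natDegree : ℤ) - 1 - (2 * 0 : ℕ)) = ((N.natDegree - 1 : ℕ) : ℤ) := by omega
      rw [h2] at h1
      simpa using h1
    · intro y hy
      have hy' : y ∈ Function.support c := hy
      rw [hcs, Set.mem_singleton_iff] at hy'
      refine ⟨1, hy', fun v hv => ?_, fun v hv => ?_⟩
      · exact hv
      · rw [inv_one]
        exact hv
    · intro j g'
      rw [finsum_eq_single _ (pt (1 : grp C K))]
      · have h2 : (g' • (pt 1 : XX C K)) = pt g' := by
          show (QuotientGroup.mk (g' * 1) : XX C K) = QuotientGroup.mk g'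
          rw [mul_one]
        rw [h2]
        simp [hc]
      · intro y hy
        simp [hc, hy]

end Pool.Agent.DEN.TMP.H13
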